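import Mathlib
import Pool.Agent.Helper893.V.PlichkoDef
import Pool.Agent.Helper893.V.Space

/-!
# A non-Plichko Banach space whose bidual is Plichko

The question (Kalenda): if the bidual of a Banach space `X` is Plichko, must `X` be Plichko?
The answer is no.
-/

open scoped ENNReal BigOperators Topology
open Filter TopologicalSpace

namespace Pool.Agent.Results.MP_828627_an.BidualPlichko

/-- A linear subspace `N` of the dual of `X` is norming: there is `c > 0` with
`sup {|f x| : f ∈ N, ‖f‖ ≤ 1} ≥ c ‖x‖` for all `x`. -/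
def IsNorming {X : Type} [NormedAddCommGroup X] [NormedSpace ℝ X]
    (N : Submodule ℝ (X →L[ℝ] ℝ)) : Prop :=
  ∃ c : ℝ, 0 < c ∧ ∀ x : X, c * ‖x‖ ≤ sSup {r : ℝ | ∃ f ∈ N, ‖f‖ ≤ 1 ∧ r = |f x|}

/-- Plichko spaces: there are a linearly dense set `S` and a norming subspace `N` of the dual such
that every `f ∈ N` is nonzero at only countably many points of `S`. -/
def IsPlichko (X : Type) [NormedAddCommGroup X] [NormedSpace ℝ X] : Prop :=
  ∃ (S : Set X) (N : Submodule ℝ (X →L[ℝ] ℝ)),
    Dense (Submodule.span ℝ S : Set X) ∧ IsNorming N ∧ ∀ f ∈ N, {s | s ∈ S ∧ f s ≠ 0}.Countable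

open Pool.Agent.Helper893.V

/-- There is a real Banach space `X` which is not Plichko although its bidual is Plichko. -/
theorem result : ∃ (X : Type) (_ : NormedAddCommGroup X) (_ : NormedSpace ℝ X)
    (_ : CompleteSpace X), IsPlichko ((X →L[ℝ] ℝ) →L[ℝ] ℝ) ∧ ¬ IsPlichko X := by
  have hc : CompleteSpace (kerSpace FJ) :=
    (isClosed_kerSpace (fun j => isClosed_FF (SJ j))).completeSpace_coe
  obtain ⟨jm, ψ, hψ⟩ := exists_embed
  exact ⟨kerSpace FJ × lp (fun _ : ℕ × (ℕ × JJ × Finset ℕ) => ℝ) 1, inferInstance, inferInstance,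
    inferInstance, isPlichko_bidual_prod jm ψ hψ, not_isPlichko⟩

end Pool.Agent.Results.MP_828627_an.BidualPlichko
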